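import Pool.Agent.MP_c51823_gt.QB.Half

/-!
A real quasi-Banach space which is not homeomorphic to any real normed space, in particular not to
any Hilbert space.
-/

set_option autoImplicit false

namespace Pool.Agent.Results.MP_c51823_gt.QuasiNorm

/-- There is a real vector space `E` with a quasi-norm `q` (constant `2`), complete for `q`, such
that `E` with the topology of `q` is not homeomorphic to any real normed space (hence to no Banach
space and no Hilbert space). -/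
theorem result :
    ∃ (E : Type) (_ : AddCommGroup E) (_ : Module ℝ E) (q : E → ℝ),
      (∀ x, 0 ≤ q x) ∧ (∀ x, q x = 0 → x = 0) ∧ (∀ (t : ℝ) (x : E), q (t • x) = |t| * q x) ∧
      (∀ x y, q (x + y) ≤ 2 * (q x + q y)) ∧
      (∀ s : ℕ → E, (∀ ε > 0, ∃ N, ∀ m ≥ N, ∀ n ≥ N, q (s m - s n) < ε) →
        ∃ x, ∀ ε > 0, ∃ N, ∀ n ≥ N, q (s n - x) < ε) ∧
      ∀ T : TopologicalSpace E,
        (∀ U : Set E, @IsOpen E T U ↔ ∀ x ∈ U, ∃ ε > 0, ∀ y, q (y - x) < ε → y ∈ U) →
        ∀ (H : Type) [NormedAddCommGroup H] [NormedSpace ℝ H], IsEmpty (@Homeomorph E H T _) := by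
  by_contra hcon
  apply Pool.QB.not_HalfNorm
  intro E _ _ _ _ hsm
  by_contra hH
  apply hcon
  have hq : ∀ (x : E) (ε : ℝ), 0 < ε → (‖x‖ ^ 2 < ε ↔ ‖x‖ < √ε) := by
    intro x ε hε
    rw [Real.lt_sqrt (norm_nonneg x)]
  refine ⟨E, inferInstance, inferInstance, fun x => ‖x‖ ^ 2, ?_, ?_, ?_, ?_, ?_, ?_⟩
  · intro x
    positivity
  · intro x hx
    simpa using hx
  · intro t x
    change ‖t • x‖ ^ 2 = |t| * ‖x‖ ^ 2
    rw [hsm, mul_pow, Real.sq_sqrt (abs_nonneg t)]
  · intro x y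
    change ‖x + y‖ ^ 2 ≤ 2 * (‖x‖ ^ 2 + ‖y‖ ^ 2)
    have h1 := norm_add_le x y
    have h2 : ‖x + y‖ ^ 2 ≤ (‖x‖ + ‖y‖) ^ 2 := by gcongr
    nlinarith [sq_nonneg (‖x‖ - ‖y‖)]
  · intro s hs
    have hc : CauchySeq s := by
      rw [Metric.cauchySeq_iff]
      intro ε hε
      obtain ⟨N, hN⟩ := hs (ε ^ 2) (by positivity)
      refine ⟨N, fun m hm n hn => ?_⟩
      have h1 := (hq _ _ (by positivity)).1 (hN m hm n hn)
      rw [Real.sqrt_sq hε.le] at h1
      rwa [dist_eq_norm]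
    obtain ⟨x, hx⟩ := cauchySeq_tendsto_of_complete hc
    refine ⟨x, fun ε hε => ?_⟩
    rw [Metric.tendsto_atTop] at hx
    obtain ⟨N, hN⟩ := hx (√ε) (Real.sqrt_pos.2 hε)
    refine ⟨N, fun n hn => ?_⟩
    have h1 := hN n hn
    rw [dist_eq_norm] at h1
    exact (hq _ _ hε).2 h1
  · have hopen : ∀ U : Set E, @IsOpen E (PseudoMetricSpace.toUniformSpace.toTopologicalSpace) U ↔
        ∀ x ∈ U, ∃ ε > 0, Metric.ball x ε ⊆ U := fun U => Metric.isOpen_iff
    have hkey : ∀ T : TopologicalSpace E,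
        (∀ U : Set E, @IsOpen E T U ↔ ∀ x ∈ U, ∃ ε > 0, ∀ y, ‖y - x‖ ^ 2 < ε → y ∈ U) →
        T = PseudoMetricSpace.toUniformSpace.toTopologicalSpace := by
      intro T hT
      refine TopologicalSpace.ext_iff.2 fun U => ?_
      refine (hT U).trans (Iff.trans ?_ (hopen U).symm)
      refine forall₂_congr fun x _ => ?_
      constructor
      · rintro ⟨ε, hε, h⟩
        refine ⟨√ε, Real.sqrt_pos.2 hε, fun y hy => h y ?_⟩
        rw [Metric.mem_ball, dist_eq_norm] at hy
        exact (hq _ _ hε).2 hy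
      · rintro ⟨ε, hε, h⟩
        refine ⟨ε ^ 2, by positivity, fun y hy => h ?_⟩
        rw [Metric.mem_ball, dist_eq_norm]
        have h1 := (hq _ _ (by positivity)).1 hy
        rwa [Real.sqrt_sq hε.le] at h1
    have hfin : ∀ T : TopologicalSpace E, T = PseudoMetricSpace.toUniformSpace.toTopologicalSpace →
        ∀ (H : Type) [NormedAddCommGroup H] [NormedSpace ℝ H], IsEmpty (@Homeomorph E H T _) := by
      intro T hT H _ _
      subst hT
      constructor
      intro e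
      exact hH ⟨H, inferInstance, inferInstance, ⟨e⟩⟩
    intro T hT H _ _
    exact hfin T (hkey T hT) H

end Pool.Agent.Results.MP_c51823_gt.QuasiNorm
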